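import Pool.Agent.V8H46.RP.Paths

/-!
# Counting paths
-/

set_option autoImplicit false

namespace Pool.Agent.V8H46.RP

section box

variable {ι : Type} [Fintype ι] [DecidableEq ι] {N : ℕ}

open Classical in
/-- the functions which agree with `w₀` outside `I` and which have the property `X` -/
noncomputable def Bx (I : Finset ι) (w₀ : ι → Fin N) (X : (ι → Fin N) → Prop) :
    Finset (ι → Fin N) :=
  Finset.univ.filter fun w => (∀ k, k ∉ I → w k = w₀ k) ∧ X w

theorem mem_Bx {I : Finset ι} {w₀ w : ι → Fin N} {X : (ι → Fin N) → Prop} :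
    w ∈ Bx I w₀ X ↔ (∀ k, k ∉ I → w k = w₀ k) ∧ X w := by
  simp [Bx]

theorem card_box {K J : Finset ι} (hKJ : K ⊆ J) (w₀ : ι → Fin N) (A : ι → Finset (Fin N)) :
    (Bx J w₀ fun w => ∀ k ∈ K, w k ∈ A k).card = (∏ k ∈ K, (A k).card) * N ^ (J \ K).card := by
  classical
  have e : (Bx J w₀ fun w => ∀ k ∈ K, w k ∈ A k) = Fintype.piFinset fun k =>
      if k ∈ K then A k else if k ∈ J then Finset.univ else {w₀ k} := by
    ext w
    rw [mem_Bx, Fintype.mem_piFinset]
    constructor
    · rintro ⟨h1, h2⟩ k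
      split_ifs with hK hJ
      · exact h2 k hK
      · exact Finset.mem_univ _
      · exact Finset.mem_singleton.2 (h1 k hJ)
    · intro h
      constructor
      · intro k hk
        have := h k
        rw [if_neg (fun hK => hk (hKJ hK)), if_neg hk] at this
        exact Finset.mem_singleton.1 this
      · intro k hk
        have := h k
        rwa [if_pos hk] at this
  rw [e, Fintype.card_piFinset]
  have e2 : ∀ k, (if k ∈ K then A k else if k ∈ J then Finset.univ else {w₀ k} :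
      Finset (Fin N)).card = (if k ∈ K then (A k).card else 1) * (if k ∈ J \ K then N else 1) := by
    intro k
    by_cases hK : k ∈ K
    · simp [hK]
    · by_cases hJ : k ∈ J
      · simp [hK, hJ]
      · simp [hK, hJ]
  rw [Finset.prod_congr rfl fun k _ => e2 k, Finset.prod_mul_distrib, Finset.prod_ite_mem,
    Finset.prod_ite_mem, Finset.univ_inter, Finset.univ_inter, Finset.prod_const]

theorem fiber {I J : Finset ι} (hIJ : I ⊆ J) (hN : 0 < N) (w₀ : ι → Fin N)
    {X Q : (ι → Fin N) → Prop} {β : ℝ}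
    (hQ : ∀ w w' : ι → Fin N, (∀ k, k ∉ I → w k = w' k) → Q w → Q w')
    (hX : ∀ w : ι → Fin N, ((Bx I w X).card : ℝ) ≤ β * (N : ℝ) ^ I.card) :
    ((Bx J w₀ fun w => X w ∧ Q w).card : ℝ) ≤ β * ((Bx J w₀ Q).card : ℝ) := by
  classical
  have key := Finset.sum_card_bipartiteAbove_eq_sum_card_bipartiteBelow
    (s := Bx J w₀ fun w => X w ∧ Q w) (t := Bx J w₀ Q)
    (fun w' w : ι → Fin N => ∀ k, k ∉ I → w k = w' k)
  have h1 : ∀ w' ∈ (Bx J w₀ fun w => X w ∧ Q w), ((Bx J w₀ Q).bipartiteAbove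
      (fun w' w : ι → Fin N => ∀ k, k ∉ I → w k = w' k) w').card = N ^ I.card := by
    intro w' hw'
    rw [mem_Bx] at hw'
    have e : (Bx J w₀ Q).bipartiteAbove
        (fun w' w : ι → Fin N => ∀ k, k ∉ I → w k = w' k) w' =
        Bx I w' fun w => ∀ k ∈ (∅ : Finset ι), w k ∈ (∅ : Finset (Fin N)) := by
      ext w
      rw [Finset.mem_bipartiteAbove, mem_Bx, mem_Bx]
      constructor
      · rintro ⟨_, h⟩
        exact ⟨h, by simp⟩
      · rintro ⟨h, _⟩
        refine ⟨⟨fun k hk => ?_, hQ w' w (fun k hk => (h k hk).symm) hw'.2.2⟩, h⟩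
        rw [h k (fun hI => hk (hIJ hI)), hw'.1 k hk]
    rw [e, card_box (Finset.empty_subset I) w' (fun _ => (∅ : Finset (Fin N)))]
    simp
  have h2 : ∀ w ∈ Bx J w₀ Q, (((Bx J w₀ fun w => X w ∧ Q w).bipartiteBelow
      (fun w' w : ι → Fin N => ∀ k, k ∉ I → w k = w' k) w).card : ℝ) ≤ β * (N : ℝ) ^ I.card := by
    intro w _
    refine le_trans ?_ (hX w)
    norm_cast
    apply Finset.card_le_card
    intro w' hw'
    rw [Finset.mem_bipartiteBelow, mem_Bx] at hw'
    rw [mem_Bx]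
    exact ⟨fun k hk => (hw'.2 k hk).symm, hw'.1.2.1⟩
  rw [Finset.sum_congr rfl h1, Finset.sum_const, smul_eq_mul] at key
  have h3 : (((Bx J w₀ fun w => X w ∧ Q w).card : ℝ) * (N : ℝ) ^ I.card) ≤
      ((Bx J w₀ Q).card : ℝ) * (β * (N : ℝ) ^ I.card) := by
    have : (((Bx J w₀ fun w => X w ∧ Q w).card * N ^ I.card : ℕ) : ℝ) =
        ((Bx J w₀ fun w => X w ∧ Q w).card : ℝ) * (N : ℝ) ^ I.card := by push_cast; ring
    rw [← this, key]
    push_cast
    calc _ ≤ ∑ _w ∈ Bx J w₀ Q, β * (N : ℝ) ^ I.card := Finset.sum_le_sum h2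
      _ = _ := by rw [Finset.sum_const, nsmul_eq_mul]
  have hpos : (0 : ℝ) < (N : ℝ) ^ I.card := by positivity
  have h4 : ((Bx J w₀ Q).card : ℝ) * (β * (N : ℝ) ^ I.card) =
      (β * (Bx J w₀ Q).card) * (N : ℝ) ^ I.card := by ring
  rw [h4] at h3
  exact le_of_mul_le_mul_right h3 hpos

end box

/-- the longest gap of a finite set -/
theorem gap : ∀ (e : ℕ) (K : Finset ℕ) (i j : ℕ), K.card = e → i < j →
    (∀ k ∈ K, i < k ∧ k < j) → ∃ p q : ℕ, i ≤ p ∧ p < q ∧ q ≤ j ∧ (∀ k ∈ K, ¬ (p < k ∧ k < q)) ∧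
      j - i ≤ (e + 1) * (q - p) := by
  intro e
  induction e with
  | zero =>
    intro K i j hK hij _
    rw [Finset.card_eq_zero] at hK
    subst hK
    exact ⟨i, j, le_rfl, hij, le_rfl, by simp, by omega⟩
  | succ e ih =>
    intro K i j hK hij hKij
    have hne : K.Nonempty := by
      rw [← Finset.card_pos]; omega
    obtain ⟨k, hk⟩ : ∃ k, k = K.max' hne := ⟨_, rfl⟩
    have hkK : k ∈ K := by rw [hk]; exact Finset.max'_mem _ _
    have hmax : ∀ x ∈ K, x ≤ k := fun x hx => by rw [hk]; exact Finset.le_max' _ _ hx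
    obtain ⟨hik, hkj⟩ := hKij k hkK
    have hc : (K.erase k).card = e := by rw [Finset.card_erase_of_mem hkK]; omega
    obtain ⟨p, q, h1, h2, h3, h4, h5⟩ := ih (K.erase k) i k hc hik (by
      intro x hx
      rw [Finset.mem_erase] at hx
      have a := hKij x hx.2
      have b := hmax x hx.2
      have c := hx.1
      omega)
    by_cases hg : j - i ≤ (e + 1 + 1) * (q - p)
    · refine ⟨p, q, h1, h2, by omega, ?_, hg⟩
      intro x hx
      by_cases hxk : x = k
      · omega
      · exact h4 x (Finset.mem_erase.2 ⟨hxk, hx⟩)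
    · refine ⟨k, j, by omega, hkj, le_rfl, ?_, ?_⟩
      · intro x hx
        have := hmax x hx
        omega
      · push Not at hg
        obtain ⟨g, hg'⟩ : ∃ g, g = q - p := ⟨_, rfl⟩
        rw [← hg'] at hg h5
        obtain ⟨h, hh⟩ : ∃ h, h = j - k := ⟨_, rfl⟩
        rw [← hh]
        have e1 : j - i = (k - i) + h := by omega
        have e2 : k - i ≤ (e + 1) * g := h5
        rw [e1] at hg ⊢
        by_contra hcon
        push Not at hcon
        nlinarith

end Pool.Agent.V8H46.RP
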