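import Mathlib

/-!
# Monotone register programs for the iterated product of matrices: definitions
-/

set_option autoImplicit false

namespace Pool.Agent.V8H46.RP

/-- One step of a register program with `S` registers and with inputs `x_e`, `e ∈ E`: load an
input, load a natural number, add, multiply. The first argument is the register in which the
result is stored; it may be one of the arguments. -/
inductive Op (S : ℕ) (E : Type) : Type
  | load (r : Fin S) (e : E)
  | const (r : Fin S) (c : ℕ)
  | add (r a b : Fin S)
  | mul (r a b : Fin S)

/-- The effect of one step on the contents `g` of the registers, over a semiring `R`. -/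
def Op.apply {S : ℕ} {E R : Type} [CommSemiring R] (x : E → R) (o : Op S E) (g : Fin S → R) :
    Fin S → R :=
  match o with
  | .load r e => Function.update g r (x e)
  | .const r c => Function.update g r (c : R)
  | .add r a b => Function.update g r (g a + g b)
  | .mul r a b => Function.update g r (g a * g b)

/-- The contents of the registers after the first `t` steps `p 0, …, p (t - 1)`; at the beginning
all registers contain `0`. -/
def regs {S : ℕ} {E R : Type} [CommSemiring R] (p : ℕ → Op S E) (x : E → R) : ℕ → Fin S → R
  | 0 => fun _ => 0
  | t + 1 => (p t).apply x (regs p x t)

/-- The first `T` steps of the program `p` compute, in the register `out`, the entry `(s, t)` of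
the product `M₁ M₂ ⋯ M_L` of any `L` matrices of dimension `N` over the semiring `R`, whose entries
are the inputs of the program. -/
def Computes (R : Type) [CommSemiring R] {S N L : ℕ} (s t : Fin N)
    (p : ℕ → Op S (Fin L × Fin N × Fin N)) (T : ℕ) (out : Fin S) : Prop :=
  ∀ M : Fin L → Matrix (Fin N) (Fin N) R,
    regs p (fun e => M e.1 e.2.1 e.2.2) T out = (List.ofFn M).prod s t

end Pool.Agent.V8H46.RP
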