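import Pool.Agent.V8H46.RP.Semi

/-!
# The corollary for `n` matrices of dimension `n ^ k`
-/

set_option autoImplicit false

namespace Pool.Agent.V8H46.RP

theorem tradeoff_semi {S N L : ℕ} {s t : Fin N} {p : ℕ → Op S (Fin L × Fin N × Fin N)} {T : ℕ}
    {out : Fin S} (h : Computes ℕ s t p T out ∨ Computes MinPlus s t p T out) {D r : ℕ}
    (hD : 1 ≤ D) (hT : T ≤ 2 ^ D) (hr : 2 ^ r ≤ L) : N ^ r ≤ 2 ^ D * (2 * D * S * L) ^ r := by
  rcases h with h | h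
  · exact tradeoff (good_nat h) hD hT hr
  · exact tradeoff (good_trop h) hD hT hr

/-- the numerical part -/
theorem numeric (F c k n r : ℕ) (hk : c + 2 ≤ k) (hr1 : 2 ^ r ≤ n) (hr2 : n < 2 ^ (r + 1))
    (hF : 1 ≤ F) (hr : 2 * (2 ^ (2 * F + 1) * F ^ 2 + 1) + 2 ≤ r) {S D : ℕ} (hS : S ≤ F * n ^ c)
    (hD : D = F * (r + 1)) : 2 ^ D * (2 * D * S * n) ^ r < (n ^ k) ^ r := by
  obtain ⟨G, hG⟩ : ∃ G, G = 2 ^ (2 * F + 1) * F ^ 2 + 1 := ⟨_, rfl⟩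
  rw [← hG] at hr
  have hr0 : 1 ≤ r := by omega
  have hn : 1 ≤ n := le_trans Nat.one_le_two_pow hr1
  -- `G (r + 1) ≤ 2 ^ r`
  have h1 : G * (r + 1) ≤ 2 ^ r := by
    obtain ⟨m, hm⟩ : ∃ m, m = r / 2 := ⟨_, rfl⟩
    have h2 : 2 * m ≤ r := by omega
    have h3 : r ≤ 2 * m + 1 := by omega
    have h4 : G + 1 ≤ m := by omega
    have h5 : m + 1 ≤ 2 ^ m := Nat.lt_two_pow_self
    have h6 : 2 * G ≤ 2 ^ m := by
      calc 2 * G ≤ 2 * 2 ^ G := Nat.mul_le_mul_left _ Nat.lt_two_pow_self.le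
        _ = 2 ^ (G + 1) := by rw [pow_succ]; ring
        _ ≤ 2 ^ m := Nat.pow_le_pow_right (by norm_num) h4
    calc G * (r + 1) ≤ G * (2 * 2 ^ m) := Nat.mul_le_mul_left _ (by omega)
      _ = (2 * G) * 2 ^ m := by ring
      _ ≤ 2 ^ m * 2 ^ m := Nat.mul_le_mul_right _ h6
      _ = 2 ^ (2 * m) := by rw [← pow_add]; congr 1; ring
      _ ≤ 2 ^ r := Nat.pow_le_pow_right (by norm_num) h2
  have h7 : 2 ^ (2 * F) * (2 * F ^ 2 * (r + 1)) < n := by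
    calc 2 ^ (2 * F) * (2 * F ^ 2 * (r + 1)) = (2 ^ (2 * F + 1) * F ^ 2) * (r + 1) := by
          rw [pow_succ]; ring
      _ < G * (r + 1) := by
          apply Nat.mul_lt_mul_of_pos_right _ (by omega)
          omega
      _ ≤ 2 ^ r := h1
      _ ≤ n := hr1
  have h8 : 2 ^ D ≤ (2 ^ (2 * F)) ^ r := by
    rw [← pow_mul]
    apply Nat.pow_le_pow_right (by norm_num)
    rw [hD]
    nlinarith
  have h9 : 2 * D * S * n ≤ (2 * F ^ 2 * (r + 1)) * n ^ (c + 1) := by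
    calc 2 * D * S * n ≤ 2 * D * (F * n ^ c) * n := by gcongr
      _ = (2 * F ^ 2 * (r + 1)) * n ^ (c + 1) := by rw [hD, pow_succ]; ring
  have h10 : n ^ (c + 1) * n ≤ n ^ k := by
    rw [← pow_succ]
    exact Nat.pow_le_pow_right hn (by omega)
  calc 2 ^ D * (2 * D * S * n) ^ r
      ≤ (2 ^ (2 * F)) ^ r * ((2 * F ^ 2 * (r + 1)) * n ^ (c + 1)) ^ r := by gcongr
    _ = (n ^ (c + 1)) ^ r * (2 ^ (2 * F) * (2 * F ^ 2 * (r + 1))) ^ r := by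
        rw [← mul_pow, ← mul_pow]; congr 1; ring
    _ < (n ^ (c + 1)) ^ r * n ^ r := by
        apply Nat.mul_lt_mul_of_pos_left
        · exact Nat.pow_lt_pow_left h7 (by omega)
        · positivity
    _ = (n ^ (c + 1) * n) ^ r := by rw [mul_pow]
    _ ≤ (n ^ k) ^ r := Nat.pow_le_pow_left h10 r

theorem corollary (f : ℕ → ℕ) (c k : ℕ) (hk : c + 2 ≤ k) : ∃ n₀ : ℕ, ∀ n ≥ n₀, ∀ S ≤ f k * n ^ c,
    ∀ T ≤ n ^ f k, ∀ (s t : Fin (n ^ k)) (p : ℕ → Op S (Fin n × Fin (n ^ k) × Fin (n ^ k)))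
      (out : Fin S), ¬ (Computes ℕ s t p T out ∨ Computes MinPlus s t p T out) := by
  obtain ⟨F, hF⟩ : ∃ F, F = f k := ⟨_, rfl⟩
  rw [← hF]
  refine ⟨2 ^ (2 * (2 ^ (2 * F + 1) * F ^ 2 + 1) + 2), ?_⟩
  intro n hn S hS T hT s t p out hcomp
  rcases Nat.eq_zero_or_pos F with h0 | hF1
  · rw [h0, zero_mul, Nat.le_zero] at hS
    subst hS
    exact out.elim0
  · obtain ⟨r, hr⟩ : ∃ r, r = Nat.log 2 n := ⟨_, rfl⟩
    have hn0 : n ≠ 0 := by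
      have : 0 < 2 ^ (2 * (2 ^ (2 * F + 1) * F ^ 2 + 1) + 2) := by positivity
      omega
    have hr1 : 2 ^ r ≤ n := by rw [hr]; exact Nat.pow_log_le_self 2 hn0
    have hr2 : n < 2 ^ (r + 1) := by rw [hr]; exact Nat.lt_pow_succ_log_self (by norm_num) n
    have hr3 : 2 * (2 ^ (2 * F + 1) * F ^ 2 + 1) + 2 ≤ r := by
      rw [hr]
      exact Nat.le_log_of_pow_le (by norm_num) hn
    have hD1 : 1 ≤ F * (r + 1) := Nat.mul_pos hF1 (Nat.succ_pos r)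
    have hT' : T ≤ 2 ^ (F * (r + 1)) := by
      calc T ≤ n ^ F := hT
        _ ≤ (2 ^ (r + 1)) ^ F := Nat.pow_le_pow_left hr2.le F
        _ = 2 ^ (F * (r + 1)) := by rw [← pow_mul, mul_comm]
    have h1 := tradeoff_semi hcomp hD1 hT' hr1
    have h2 := numeric F c k n r hk hr1 hr2 hF1 hr3 hS rfl
    exact absurd h1 (not_le.2 h2)

end Pool.Agent.V8H46.RP
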