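import Pool.Agent.V8H46.RP.Count

/-!
# The main estimate
-/

set_option autoImplicit false

namespace Pool.Agent.V8H46.RP

variable {S N L : ℕ}

/-- the positions strictly between `i` and `j` -/
def Fr (L i j : ℕ) : Finset (Fin (L + 1)) := Finset.univ.filter fun k => i < k.val ∧ k.val < j

theorem mem_Fr {i j : ℕ} {k : Fin (L + 1)} : k ∈ Fr L i j ↔ i < k.val ∧ k.val < j := by
  simp [Fr]

theorem card_Fr_le (i j : ℕ) (hj : j ≤ L) : (Fr L i j).card ≤ L := by
  have h : Fr L i j ⊆ (Finset.univ.erase (0 : Fin (L + 1))) := by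
    intro k hk
    rw [mem_Fr] at hk
    rw [Finset.mem_erase]
    refine ⟨?_, Finset.mem_univ _⟩
    rintro rfl
    simp at hk
  have := Finset.card_le_card h
  rw [Finset.card_erase_of_mem (Finset.mem_univ _), Finset.card_univ, Fintype.card_fin] at this
  omega

theorem Fr_sub {i j p q : ℕ} (h1 : i ≤ p) (h2 : q ≤ j) : Fr L p q ⊆ Fr L i j := by
  intro k hk
  rw [mem_Fr] at hk ⊢
  omega

/-- the path `w` has a derivation in which the edges of the layers `i, …, j - 1` are loaded at
times in `[a, b)` -/
def Load (A : Set (Multiset (Edge N L × ℕ))) (i j a b : ℕ) (w : Fin (L + 1) → Fin N) : Prop :=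
  ∃ τ : Fin L → ℕ, pm w τ ∈ A ∧ ∀ l : Fin L, i ≤ l.val → l.val < j → a ≤ τ l ∧ τ l < b

theorem Load.mono {A : Set (Multiset (Edge N L × ℕ))} {i j p q a b : ℕ}
    {w : Fin (L + 1) → Fin N} (h : Load A i j a b w) (h1 : i ≤ p) (h2 : q ≤ j) :
    Load A p q a b w := by
  obtain ⟨τ, h3, h4⟩ := h
  exact ⟨τ, h3, fun l hl hl' => h4 l (by omega) (by omega)⟩

/-- a predicate without changes is constant -/
theorem const_status {i j : ℕ} (hj : j ≤ L) (P : Fin L → Prop)
    (h : ∀ l l' : Fin L, l'.val = l.val + 1 → i ≤ l.val → l'.val < j → (P l ↔ P l')) :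
    ∀ l l' : Fin L, i ≤ l.val → l.val < j → i ≤ l'.val → l'.val < j → (P l ↔ P l') := by
  have key : ∀ (d : ℕ) (l l' : Fin L), l'.val = l.val + d → i ≤ l.val → l'.val < j →
      (P l ↔ P l') := by
    intro d
    induction d with
    | zero =>
      intro l l' h1 _ _
      have : l = l' := Fin.ext (by omega)
      rw [this]
    | succ d ih =>
      intro l l' h1 h2 h3
      have hlt : l.val + d < L := by omega
      rw [ih l ⟨l.val + d, hlt⟩ rfl h2 (by simp only; omega)]
      exact h _ _ (by simp only; omega) (by simp only; omega) h3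
  intro l l' h1 h2 h3 h4
  rcases Nat.le_total l.val l'.val with h5 | h5
  · exact key (l'.val - l.val) l l' (by omega) h1 h4
  · exact (key (l.val - l'.val) l' l (by omega) h3 h2).symm

theorem exp_bound {D : ℕ} (hD : 1 ≤ D) (hL : 0 < L) {c : ℕ} (hc : c ≤ L) :
    (1 / (2 * D * L : ℝ) + 1) ^ c - 1 ≤ 1 / D := by
  have hL' : (0 : ℝ) < L := by exact_mod_cast hL
  have hD' : (1 : ℝ) ≤ D := by exact_mod_cast hD
  have hx : (0 : ℝ) ≤ 1 / (2 * D * L) := by positivity
  have h1 : (1 / (2 * D * L : ℝ) + 1) ^ c ≤ (1 / (2 * D * L : ℝ) + 1) ^ L :=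
    pow_le_pow_right₀ (by linarith) hc
  have h2 : (1 / (2 * D * L : ℝ) + 1) ^ L ≤ Real.exp (1 / (2 * D * L)) ^ L :=
    pow_le_pow_left₀ (by linarith) (Real.add_one_le_exp _) L
  have h3 : Real.exp (1 / (2 * D * L)) ^ L = Real.exp (1 / (2 * D)) := by
    rw [← Real.exp_nat_mul]
    congr 1
    field_simp
  have h4 : Real.exp (1 / (2 * D)) ≤ 1 + 1 / D := by
    obtain ⟨y, hy⟩ : ∃ y, y = (1 : ℝ) / (2 * D) := ⟨_, rfl⟩
    have hy0 : 0 ≤ y := by rw [hy]; positivity
    have hy1 : y ≤ 1 := by
      rw [hy, div_le_one (by positivity)]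
      linarith
    have h5 := Real.abs_exp_sub_one_sub_id_le (x := y) (by rw [abs_of_nonneg hy0]; exact hy1)
    have h6 : Real.exp y - 1 - y ≤ y ^ 2 := (le_abs_self _).trans h5
    have h7 : (1 : ℝ) / D = 2 * y := by rw [hy]; field_simp
    rw [← hy, h7]
    nlinarith
  linarith

/-- the main estimate -/
theorem main_bound {p : ℕ → Op S (Edge N L)} {T : ℕ} {out : Fin S} {s₀ t₀ : Fin N}
    (hA : Good (C p T out) s₀ t₀) {D : ℕ} (hD : 1 ≤ D) (hL : 0 < L) {κ : ℝ} (hκ0 : 0 < κ)
    (hκ1 : κ ≤ 1) (hκ : (S : ℝ) / N ≤ κ * (1 / (2 * D * L))) :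
    ∀ r : ℕ, ∀ d ≤ D, ∀ i j : ℕ, 2 ^ r ≤ j - i → j ≤ L → ∀ (a : ℕ) (w₀ : Fin (L + 1) → Fin N),
      ((Bx (Fr L i j) w₀ (Load (C p T out) i j a (a + 2 ^ d))).card : ℝ) ≤
        2 ^ d * κ ^ r * (N : ℝ) ^ (Fr L i j).card := by
  classical
  have hN : 0 < N := by
    have := s₀.isLt
    omega
  have hN' : (0 : ℝ) < N := by exact_mod_cast hN
  have hD' : (1 : ℝ) ≤ D := by exact_mod_cast hD
  have hL' : (0 : ℝ) < L := by exact_mod_cast hL
  obtain ⟨x, hx⟩ : ∃ x : ℝ, x = 1 / (2 * D * L) := ⟨_, rfl⟩
  have hx0 : 0 ≤ x := by rw [hx]; positivity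
  rw [← hx] at hκ
  intro r
  induction r using Nat.strong_induction_on with
  | _ r IH =>
  rcases Nat.eq_zero_or_pos r with hr | hr
  · -- trivial bound
    subst hr
    intro d _ i j _ _ a w₀
    have h1 := Finset.card_le_card (s := Bx (Fr L i j) w₀ (Load (C p T out) i j a (a + 2 ^ d)))
      (t := Bx (Fr L i j) w₀ fun w => ∀ k ∈ (∅ : Finset (Fin (L + 1))),
        w k ∈ (∅ : Finset (Fin N))) (by
        intro w hw
        rw [mem_Bx] at hw ⊢
        exact ⟨hw.1, by simp⟩)
    rw [card_box (Finset.empty_subset _)] at h1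
    simp only [Finset.prod_empty, one_mul, Finset.sdiff_empty] at h1
    have h2 : ((Bx (Fr L i j) w₀ (Load (C p T out) i j a (a + 2 ^ d))).card : ℝ) ≤
        (N : ℝ) ^ (Fr L i j).card := by exact_mod_cast h1
    have h3 : (1 : ℝ) ≤ 2 ^ d := one_le_pow₀ (by norm_num)
    have h4 : (0 : ℝ) ≤ (N : ℝ) ^ (Fr L i j).card := by positivity
    rw [pow_zero, mul_one]
    nlinarith
  · -- the stronger statement
    have strong : ∀ d ≤ D, ∀ i j : ℕ, 2 ^ r ≤ j - i → j ≤ L → ∀ (a : ℕ)
        (w₀ : Fin (L + 1) → Fin N),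
        ((Bx (Fr L i j) w₀ (Load (C p T out) i j a (a + 2 ^ d))).card : ℝ) ≤
          (d / D) * (2 ^ d * κ ^ r * (N : ℝ) ^ (Fr L i j).card) := by
      intro d
      induction d with
      | zero =>
        intro _ i j hij hjL a w₀
        have h2r : 2 ≤ j - i := by
          refine le_trans ?_ hij
          calc 2 = 2 ^ 1 := by norm_num
            _ ≤ 2 ^ r := Nat.pow_le_pow_right (by norm_num) hr
        have h0 : Bx (Fr L i j) w₀ (Load (C p T out) i j a (a + 2 ^ 0)) = ∅ := by
          rw [Finset.eq_empty_iff_forall_notMem]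
          intro w hw
          rw [mem_Bx] at hw
          obtain ⟨_, τ, h3, h4⟩ := hw
          have l1 : i < L := by omega
          have l2 : i + 1 < L := by omega
          have k1 := h4 ⟨i, l1⟩ (by simp) (by simp only; omega)
          have k2 := h4 ⟨i + 1, l2⟩ (by simp) (by simp only; omega)
          rw [pow_zero] at k1 k2
          have m1 := (times T out _ h3 _ (mem_pm w τ ⟨i, l1⟩)).2
          have m2 := (times T out _ h3 _ (mem_pm w τ ⟨i + 1, l2⟩)).2
          simp only at m1 m2
          have e1 : τ ⟨i, l1⟩ = a := by omega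
          have e2 : τ ⟨i + 1, l2⟩ = a := by omega
          rw [e1] at m1
          rw [e2] at m2
          obtain ⟨r1, m1⟩ := m1
          obtain ⟨r2, m2⟩ := m2
          rw [m1] at m2
          have e3 : edge w ⟨i, l1⟩ = edge w ⟨i + 1, l2⟩ := by
            injection m2
          have e4 : (⟨i, l1⟩ : Fin L) = ⟨i + 1, l2⟩ := congrArg (fun e : Edge N L => e.1) e3
          have e5 := congrArg Fin.val e4
          simp at e5
        rw [h0]
        simp
      | succ d ih =>
        intro hdD i j hij hjL a w₀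
        have hij' : i < j := by
          have : 1 ≤ 2 ^ r := Nat.one_le_two_pow
          omega
        obtain ⟨t, ht⟩ : ∃ t, t = a + 2 ^ d := ⟨_, rfl⟩
        have ht2 : a + 2 ^ (d + 1) = t + 2 ^ d := by rw [ht, pow_succ]; ring
        -- the gaps
        have hgap : ∀ K ∈ (Fr L i j).powerset, ∃ pq : ℕ × ℕ, i ≤ pq.1 ∧ pq.1 < pq.2 ∧
            pq.2 ≤ j ∧ (∀ k ∈ K, ¬ (pq.1 < k.val ∧ k.val < pq.2)) ∧
            j - i ≤ (K.card + 1) * (pq.2 - pq.1) := by
          intro K hK
          rw [Finset.mem_powerset] at hK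
          obtain ⟨p', q', h1, h2, h3, h4, h5⟩ := gap K.card (K.image Fin.val) i j
            (Finset.card_image_of_injective K Fin.val_injective) hij' (by
              intro k hk
              obtain ⟨k', hk', rfl⟩ := Finset.mem_image.1 hk
              exact mem_Fr.1 (hK hk'))
          exact ⟨(p', q'), h1, h2, h3, fun k hk => h4 _ (Finset.mem_image_of_mem _ hk), h5⟩
        choose! g hg using hgap
        -- covering
        have cover : Bx (Fr L i j) w₀ (Load (C p T out) i j a (a + 2 ^ (d + 1))) ⊆
            Bx (Fr L i j) w₀ (Load (C p T out) i j a (a + 2 ^ d)) ∪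
            (Bx (Fr L i j) w₀ (Load (C p T out) i j t (t + 2 ^ d)) ∪
            ((Fr L i j).powerset.erase ∅).biUnion fun K => Bx (Fr L i j) w₀ fun w =>
              Load (C p T out) (g K).1 (g K).2 a (a + 2 ^ (d + 1)) w ∧
                ∀ k ∈ K, w k ∈ V p T out t k) := by
          intro w hw
          rw [mem_Bx] at hw
          obtain ⟨h1, τ, h2, h3⟩ := hw
          obtain ⟨K, hK⟩ : ∃ K : Finset (Fin (L + 1)), K = (Fr L i j).filter fun k =>
            ∃ l l' : Fin L, l.succ = k ∧ l.succ = l'.castSucc ∧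
              ((τ l < t ∧ ¬ τ l' < t) ∨ (τ l' < t ∧ ¬ τ l < t)) := ⟨_, rfl⟩
          by_cases hKe : K = ∅
          · -- no change
            have hst := const_status (i := i) (j := j) hjL (fun l => τ l < t) (by
              intro l l' h4 h5 h6
              by_contra hcon
              have hk : l.succ ∈ K := by
                rw [hK, Finset.mem_filter, mem_Fr]
                refine ⟨⟨by rw [Fin.val_succ]; omega, by rw [Fin.val_succ]; omega⟩, l, l', rfl,
                  Fin.ext (by rw [Fin.val_succ, Fin.val_castSucc]; omega), ?_⟩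
                tauto
              rw [hKe] at hk
              exact absurd hk (Finset.notMem_empty _))
            have hiL : i < L := by omega
            by_cases hi : τ ⟨i, hiL⟩ < t
            · apply Finset.mem_union_left
              rw [mem_Bx]
              refine ⟨h1, τ, h2, fun l h4 h5 => ⟨(h3 l h4 h5).1, ?_⟩⟩
              rw [← ht]
              exact (hst ⟨i, hiL⟩ l (by simp) (by simpa using hij') h4 h5).1 hi
            · apply Finset.mem_union_right
              apply Finset.mem_union_left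
              rw [mem_Bx]
              refine ⟨h1, τ, h2, fun l h4 h5 => ⟨?_, ?_⟩⟩
              · have := (hst ⟨i, hiL⟩ l (by simp) (by simpa using hij') h4 h5).not.1 hi
                simpa using this
              · rw [← ht2]; exact (h3 l h4 h5).2
          · apply Finset.mem_union_right
            apply Finset.mem_union_right
            have hKs : K ⊆ Fr L i j := by rw [hK]; exact Finset.filter_subset _ _
            have hKp : K ∈ (Fr L i j).powerset := Finset.mem_powerset.2 hKs
            obtain ⟨g1, g2, g3, _, _⟩ := hg K hKp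
            rw [Finset.mem_biUnion]
            refine ⟨K, Finset.mem_erase.2 ⟨hKe, hKp⟩, ?_⟩
            rw [mem_Bx]
            refine ⟨h1, Load.mono ⟨τ, h2, h3⟩ g1 g3, ?_⟩
            intro k hk
            rw [hK, Finset.mem_filter] at hk
            obtain ⟨_, l, l', k1, k2, k3⟩ := hk
            obtain ⟨ρ, hρ⟩ := change h2 t k3
            rw [V, Finset.mem_filter]
            refine ⟨Finset.mem_univ _, l, l', ρ, k1, k2, ?_⟩
            rw [← k1]
            exact hρ
        -- the bound for one set of changes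
        have hK : ∀ K ∈ (Fr L i j).powerset.erase ∅,
            ((Bx (Fr L i j) w₀ fun w =>
              Load (C p T out) (g K).1 (g K).2 a (a + 2 ^ (d + 1)) w ∧
                ∀ k ∈ K, w k ∈ V p T out t k).card : ℝ) ≤
            2 ^ (d + 1) * κ ^ r * (N : ℝ) ^ (Fr L i j).card * x ^ K.card := by
          intro K hK
          obtain ⟨hKe, hKp⟩ := Finset.mem_erase.1 hK
          have hKs := Finset.mem_powerset.1 hKp
          obtain ⟨g1, g2, g3, g4, g5⟩ := hg K hKp
          have hKc : 1 ≤ K.card := Finset.card_pos.2 (Finset.nonempty_iff_ne_empty.2 hKe)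
          have hKJ : K.card ≤ (Fr L i j).card := Finset.card_le_card hKs
          have hlen : 2 ^ (r - K.card) ≤ (g K).2 - (g K).1 := by
            have e1 : K.card + 1 ≤ 2 ^ K.card := Nat.lt_two_pow_self
            have e2 : 2 ^ r ≤ 2 ^ K.card * ((g K).2 - (g K).1) :=
              (hij.trans g5).trans (Nat.mul_le_mul_right _ e1)
            rcases Nat.le_total K.card r with h | h
            · have e3 : 2 ^ r = 2 ^ K.card * 2 ^ (r - K.card) := by
                rw [← pow_add]; congr 1; omega
              rw [e3] at e2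
              exact Nat.le_of_mul_le_mul_left e2 (by positivity)
            · rw [Nat.sub_eq_zero_of_le h]
              omega
          have f1 := fiber (I := Fr L (g K).1 (g K).2) (J := Fr L i j) (Fr_sub g1 g3) hN w₀
            (X := Load (C p T out) (g K).1 (g K).2 a (a + 2 ^ (d + 1)))
            (Q := fun w => ∀ k ∈ K, w k ∈ V p T out t k) (β := 2 ^ (d + 1) * κ ^ (r - K.card)) (by
              intro w w' h1 h2 k hk
              rw [← h1 k]
              · exact h2 k hk
              · rw [mem_Fr]; exact g4 k hk) (by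
              intro w
              exact IH (r - K.card) (by omega) (d + 1) hdD (g K).1 (g K).2 hlen (by omega) a w)
          refine f1.trans ?_
          rw [card_box hKs]
          have f2 : (∏ k ∈ K, (V p T out t k).card) ≤ S ^ K.card := by
            calc _ ≤ ∏ _k ∈ K, S := Finset.prod_le_prod (fun _ _ => Nat.zero_le _)
                  (fun k _ => card_V hA t k)
              _ = _ := Finset.prod_const _
          have f3 : (Fr L i j \ K).card = (Fr L i j).card - K.card :=
            Finset.card_sdiff_of_subset hKs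
          rw [f3]
          have f4 : (((∏ k ∈ K, (V p T out t k).card) * N ^ ((Fr L i j).card - K.card) : ℕ) : ℝ) ≤
              (κ * x) ^ K.card * (N : ℝ) ^ (Fr L i j).card := by
            have e1 : (((∏ k ∈ K, (V p T out t k).card) * N ^ ((Fr L i j).card - K.card) : ℕ) : ℝ) ≤
                (S : ℝ) ^ K.card * (N : ℝ) ^ ((Fr L i j).card - K.card) := by
              exact_mod_cast Nat.mul_le_mul_right _ f2
            have e2 : (S : ℝ) ≤ κ * x * N := by
              rwa [div_le_iff₀ hN'] at hκ
            have e3 : (S : ℝ) ^ K.card ≤ (κ * x * N) ^ K.card :=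
              pow_le_pow_left₀ (by positivity) e2 _
            calc _ ≤ _ := e1
              _ ≤ (κ * x * N) ^ K.card * (N : ℝ) ^ ((Fr L i j).card - K.card) := by gcongr
              _ = (κ * x) ^ K.card * ((N : ℝ) ^ K.card * (N : ℝ) ^ ((Fr L i j).card - K.card)) := by
                  rw [mul_pow]; ring
              _ = _ := by
                  rw [← pow_add]
                  congr 2
                  omega
          have f5 : κ ^ (r - K.card) * κ ^ K.card ≤ κ ^ r := by
            rw [← pow_add]
            exact pow_le_pow_of_le_one hκ0.le hκ1 (by omega)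
          calc 2 ^ (d + 1) * κ ^ (r - K.card) *
                (((∏ k ∈ K, (V p T out t k).card) * N ^ ((Fr L i j).card - K.card) : ℕ) : ℝ)
              ≤ 2 ^ (d + 1) * κ ^ (r - K.card) *
                ((κ * x) ^ K.card * (N : ℝ) ^ (Fr L i j).card) := by gcongr
            _ = 2 ^ (d + 1) * (κ ^ (r - K.card) * κ ^ K.card) * (N : ℝ) ^ (Fr L i j).card *
                x ^ K.card := by rw [mul_pow]; ring
            _ ≤ 2 ^ (d + 1) * κ ^ r * (N : ℝ) ^ (Fr L i j).card * x ^ K.card := by gcongr
        -- the sum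
        have hsum : ∑ K ∈ (Fr L i j).powerset.erase ∅, x ^ K.card ≤ 1 / D := by
          have e1 : ∑ K ∈ (Fr L i j).powerset, x ^ K.card = (x + 1) ^ (Fr L i j).card := by
            rw [← Finset.sum_pow_mul_eq_add_pow]
            exact Finset.sum_congr rfl fun K _ => by rw [one_pow, mul_one]
          have e2 := Finset.sum_erase_eq_sub (s := (Fr L i j).powerset) (a := ∅)
            (f := fun K : Finset (Fin (L + 1)) => x ^ K.card) (Finset.empty_mem_powerset _)
          rw [e2, e1]
          simp only [Finset.card_empty, pow_zero]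
          rw [hx]
          exact exp_bound hD hL (card_Fr_le i j hjL)
        have c1 := Finset.card_le_card cover
        have c2 := Finset.card_union_le (Bx (Fr L i j) w₀ (Load (C p T out) i j a (a + 2 ^ d)))
          (Bx (Fr L i j) w₀ (Load (C p T out) i j t (t + 2 ^ d)) ∪
            ((Fr L i j).powerset.erase ∅).biUnion fun K => Bx (Fr L i j) w₀ fun w =>
              Load (C p T out) (g K).1 (g K).2 a (a + 2 ^ (d + 1)) w ∧
                ∀ k ∈ K, w k ∈ V p T out t k)
        have c3 := Finset.card_union_le (Bx (Fr L i j) w₀ (Load (C p T out) i j t (t + 2 ^ d)))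
          (((Fr L i j).powerset.erase ∅).biUnion fun K => Bx (Fr L i j) w₀ fun w =>
              Load (C p T out) (g K).1 (g K).2 a (a + 2 ^ (d + 1)) w ∧
                ∀ k ∈ K, w k ∈ V p T out t k)
        have c4 := Finset.card_biUnion_le (s := (Fr L i j).powerset.erase ∅)
          (t := fun K => Bx (Fr L i j) w₀ fun w =>
              Load (C p T out) (g K).1 (g K).2 a (a + 2 ^ (d + 1)) w ∧
                ∀ k ∈ K, w k ∈ V p T out t k)
        have c5 := (c1.trans c2).trans (Nat.add_le_add_left (c3.trans (Nat.add_le_add_left c4 _)) _)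
        have c6 : ((Bx (Fr L i j) w₀ (Load (C p T out) i j a (a + 2 ^ (d + 1)))).card : ℝ) ≤
            ((Bx (Fr L i j) w₀ (Load (C p T out) i j a (a + 2 ^ d))).card : ℝ) +
            (((Bx (Fr L i j) w₀ (Load (C p T out) i j t (t + 2 ^ d))).card : ℝ) +
            ∑ K ∈ (Fr L i j).powerset.erase ∅, ((Bx (Fr L i j) w₀ fun w =>
              Load (C p T out) (g K).1 (g K).2 a (a + 2 ^ (d + 1)) w ∧
                ∀ k ∈ K, w k ∈ V p T out t k).card : ℝ)) := by
          exact_mod_cast c5
        have c7 : ∑ K ∈ (Fr L i j).powerset.erase ∅, ((Bx (Fr L i j) w₀ fun w =>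
              Load (C p T out) (g K).1 (g K).2 a (a + 2 ^ (d + 1)) w ∧
                ∀ k ∈ K, w k ∈ V p T out t k).card : ℝ) ≤
            2 ^ (d + 1) * κ ^ r * (N : ℝ) ^ (Fr L i j).card * (1 / D) := by
          calc _ ≤ ∑ K ∈ (Fr L i j).powerset.erase ∅,
                2 ^ (d + 1) * κ ^ r * (N : ℝ) ^ (Fr L i j).card * x ^ K.card :=
                Finset.sum_le_sum hK
            _ = 2 ^ (d + 1) * κ ^ r * (N : ℝ) ^ (Fr L i j).card *
                ∑ K ∈ (Fr L i j).powerset.erase ∅, x ^ K.card := by rw [Finset.mul_sum]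
            _ ≤ _ := by gcongr
        have c8 := ih (by omega) i j hij hjL a w₀
        have c9 := ih (by omega) i j hij hjL t w₀
        refine c6.trans ?_
        have c10 : ((d + 1 : ℕ) : ℝ) / D * (2 ^ (d + 1) * κ ^ r * (N : ℝ) ^ (Fr L i j).card) =
            (d / D) * (2 ^ d * κ ^ r * (N : ℝ) ^ (Fr L i j).card) +
            ((d / D) * (2 ^ d * κ ^ r * (N : ℝ) ^ (Fr L i j).card) +
              2 ^ (d + 1) * κ ^ r * (N : ℝ) ^ (Fr L i j).card * (1 / D)) := by
          push_cast
          ring
        rw [c10]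
        linarith
    intro d hd i j hij hjL a w₀
    refine (strong d hd i j hij hjL a w₀).trans ?_
    have h1 : (d : ℝ) / D ≤ 1 := by
      rw [div_le_one (by linarith)]
      exact_mod_cast hd
    have h2 : 0 ≤ 2 ^ d * κ ^ r * (N : ℝ) ^ (Fr L i j).card := by positivity
    nlinarith

/-- the trade-off for the number of registers and steps -/
theorem tradeoff {p : ℕ → Op S (Edge N L)} {T : ℕ} {out : Fin S} {s₀ t₀ : Fin N}
    (hA : Good (C p T out) s₀ t₀) {D r : ℕ} (hD : 1 ≤ D) (hT : T ≤ 2 ^ D) (hr : 2 ^ r ≤ L) :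
    N ^ r ≤ 2 ^ D * (2 * D * S * L) ^ r := by
  classical
  have hN : 0 < N := by
    have := s₀.isLt
    omega
  have hN' : (0 : ℝ) < N := by exact_mod_cast hN
  have hL : 0 < L := lt_of_lt_of_le (by positivity) hr
  have hS : 0 < S := by
    have := out.isLt
    omega
  have hL' : (0 : ℝ) < L := by exact_mod_cast hL
  have hS' : (0 : ℝ) < S := by exact_mod_cast hS
  have hD' : (1 : ℝ) ≤ D := by exact_mod_cast hD
  by_cases hbig : N ≤ 2 * D * S * L
  · calc N ^ r ≤ (2 * D * S * L) ^ r := Nat.pow_le_pow_left hbig r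
      _ ≤ _ := Nat.le_mul_of_pos_left _ (by positivity)
  · push Not at hbig
    have hbig' : (2 * D * S * L : ℝ) < N := by exact_mod_cast hbig
    obtain ⟨κ, hκ⟩ : ∃ κ : ℝ, κ = 2 * D * S * L / N := ⟨_, rfl⟩
    have hκ0 : 0 < κ := by rw [hκ]; positivity
    have hκ1 : κ ≤ 1 := by rw [hκ, div_le_one hN']; exact hbig'.le
    have h1 := main_bound hA hD hL hκ0 hκ1 (by
      rw [hκ]
      apply le_of_eq
      field_simp) r D le_rfl 0 L (by simpa using hr) le_rfl 0
      (fun k => if k = 0 then s₀ else t₀)
    have hlast : Fin.last L ≠ 0 := by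
      intro h
      have := congrArg Fin.val h
      simp at this
      omega
    have h2 : Bx (Fr L 0 L) (fun k => if k = 0 then s₀ else t₀)
        (Load (C p T out) 0 L 0 (0 + 2 ^ D)) =
        Bx (Fr L 0 L) (fun k => if k = 0 then s₀ else t₀)
          fun w => ∀ k ∈ (∅ : Finset (Fin (L + 1))), w k ∈ (∅ : Finset (Fin N)) := by
      ext w
      rw [mem_Bx, mem_Bx]
      constructor
      · rintro ⟨h, _⟩
        exact ⟨h, by simp⟩
      · rintro ⟨h, _⟩
        refine ⟨h, ?_⟩
        have e1 : w 0 = s₀ := by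
          have := h 0 (by rw [mem_Fr]; simp)
          simpa using this
        have e2 : w (Fin.last L) = t₀ := by
          have := h (Fin.last L) (by rw [mem_Fr]; simp)
          rw [if_neg hlast] at this
          exact this
        obtain ⟨τ, hτ⟩ := hA.all w e1 e2
        refine ⟨τ, hτ, fun l _ _ => ⟨Nat.zero_le _, ?_⟩⟩
        have := (times T out _ hτ _ (mem_pm w τ l)).1
        simp only at this
        omega
    rw [h2, card_box (Finset.empty_subset _)] at h1
    simp only [Finset.prod_empty, one_mul, Finset.sdiff_empty] at h1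
    push_cast at h1
    have hpos : (0 : ℝ) < (N : ℝ) ^ (Fr L 0 L).card := by positivity
    have h3 : (1 : ℝ) ≤ 2 ^ D * κ ^ r := by
      by_contra hcon
      push Not at hcon
      nlinarith
    rw [hκ, div_pow] at h3
    have h4 : (N : ℝ) ^ r ≤ 2 ^ D * (2 * D * S * L) ^ r := by
      have hNr : (0 : ℝ) < (N : ℝ) ^ r := by positivity
      have : 2 ^ D * ((2 * D * S * L : ℝ) ^ r / (N : ℝ) ^ r) =
        (2 ^ D * (2 * D * S * L : ℝ) ^ r) / (N : ℝ) ^ r := by ring
      rw [this, le_div_iff₀ hNr, one_mul] at h3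
      exact h3
    exact_mod_cast h4

end Pool.Agent.V8H46.RP
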