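import Pool.Agent.V8H46.RP.Sets

/-!
# Path monomials
-/

set_option autoImplicit false

namespace Pool.Agent.V8H46.RP

variable {S N L : ℕ}

/-- entries of the matrices: number of the matrix, row, column -/
abbrev Edge (N L : ℕ) := Fin L × Fin N × Fin N

/-- the `l`-th edge of the path `w` -/
def edge (w : Fin (L + 1) → Fin N) (l : Fin L) : Edge N L := (l, w l.castSucc, w l.succ)

/-- the monomial of a path -/
def pathE (w : Fin (L + 1) → Fin N) : Multiset (Edge N L) :=
  (Finset.univ : Finset (Fin L)).val.map (edge w)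

/-- the monomial of a path with the times of loading -/
def pm (w : Fin (L + 1) → Fin N) (τ : Fin L → ℕ) : Multiset (Edge N L × ℕ) :=
  (Finset.univ : Finset (Fin L)).val.map fun l => (edge w l, τ l)

theorem card_pathE (w : Fin (L + 1) → Fin N) : (pathE w).card = L := by
  simp [pathE]

theorem card_pm (w : Fin (L + 1) → Fin N) (τ : Fin L → ℕ) : (pm w τ).card = L := by
  simp [pm]

theorem pm_fst (w : Fin (L + 1) → Fin N) (τ : Fin L → ℕ) : (pm w τ).map Prod.fst = pathE w := by
  simp [pm, pathE, Function.comp_def]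

theorem mem_pm (w : Fin (L + 1) → Fin N) (τ : Fin L → ℕ) (l : Fin L) :
    (edge w l, τ l) ∈ pm w τ :=
  Multiset.mem_map.2 ⟨l, Finset.mem_univ_val l, rfl⟩

theorem mem_pathE {w : Fin (L + 1) → Fin N} {e : Edge N L} (h : e ∈ pathE w) :
    e = edge w e.1 := by
  obtain ⟨l, _, rfl⟩ := Multiset.mem_map.1 h
  rfl

/-- the number of factors from the `l`-th matrix -/
def lay (l : Fin L) (m : Multiset (Edge N L)) : ℕ := m.countP fun e => e.1 = l

theorem lay_add (l : Fin L) (m m' : Multiset (Edge N L)) : lay l (m + m') = lay l m + lay l m' :=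
  Multiset.countP_add _ _ _

theorem lay_pathE (l : Fin L) (w : Fin (L + 1) → Fin N) : lay l (pathE w) = 1 := by
  unfold lay pathE
  rw [Multiset.countP_map]
  have : Multiset.filter (fun a => (edge w a).1 = l) (Finset.univ : Finset (Fin L)).val =
      ((Finset.univ : Finset (Fin L)).filter fun a => a = l).val := rfl
  rw [this, Finset.filter_eq' Finset.univ l]
  simp

theorem lay_pos {l : Fin L} {m : Multiset (Edge N L)} {e : Edge N L} (h : e ∈ m) (he : e.1 = l) :
    0 < lay l m := Multiset.countP_pos.2 ⟨e, h, he⟩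

/-- the set `A` of monomials consists of the path monomials and of monomials of higher degree -/
structure Good (A : Set (Multiset (Edge N L × ℕ))) (s t : Fin N) : Prop where
  low : ∀ m ∈ A, ∃ w : Fin (L + 1) → Fin N, w 0 = s ∧ w (Fin.last L) = t ∧
    pathE w ≤ m.map Prod.fst
  all : ∀ w : Fin (L + 1) → Fin N, w 0 = s → w (Fin.last L) = t → ∃ τ, pm w τ ∈ A

/-- the vertex `v` between the layers `l` and `l'` is marked by the set `B` -/
def U (A B : Set (Multiset (Edge N L × ℕ))) (l l' : Fin L) (v : Fin N) : Prop :=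
  ∃ (f rest : Multiset (Edge N L × ℕ)) (w : Fin (L + 1) → Fin N) (τ : Fin L → ℕ),
    f ∈ B ∧ rest + f = pm w τ ∧ (∀ f' ∈ B, rest + f' ∈ A) ∧ w l.succ = v ∧
    ((edge w l ∈ f.map Prod.fst ∧ edge w l' ∈ rest.map Prod.fst) ∨
      (edge w l' ∈ f.map Prod.fst ∧ edge w l ∈ rest.map Prod.fst))

theorem U_unique {A B : Set (Multiset (Edge N L × ℕ))} {s t : Fin N} (hA : Good A s t)
    {l l' : Fin L} (hl : l.succ = l'.castSucc) {v v' : Fin N} (h1 : U A B l l' v)
    (h2 : U A B l l' v') : v = v' := by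
  obtain ⟨f, rest, w, τ, hf, hw, hr, hv, hc⟩ := h1
  obtain ⟨f2, rest2, w2, τ2, hf2, hw2, hr2, hv2, hc2⟩ := h2
  have key : ∀ m ∈ A, L ≤ m.card := by
    intro m hm
    obtain ⟨w', _, _, h⟩ := hA.low m hm
    have := Multiset.card_le_card h
    rwa [card_pathE, Multiset.card_map] at this
  have c1 : rest.card + f.card = L := by rw [← Multiset.card_add, hw, card_pm]
  have c2 : rest2.card + f2.card = L := by rw [← Multiset.card_add, hw2, card_pm]
  have c3 : L ≤ rest.card + f2.card := by rw [← Multiset.card_add]; exact key _ (hr f2 hf2)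
  have c4 : L ≤ rest2.card + f.card := by rw [← Multiset.card_add]; exact key _ (hr2 f hf)
  obtain ⟨w3, _, _, h3⟩ := hA.low _ (hr f2 hf2)
  have h3' : pathE w3 = (rest + f2).map Prod.fst := by
    apply Multiset.eq_of_le_of_card_le h3
    rw [card_pathE, Multiset.card_map, Multiset.card_add]
    omega
  rw [Multiset.map_add] at h3'
  have e1 : rest.map Prod.fst + f.map Prod.fst = pathE w := by
    rw [← Multiset.map_add, hw, pm_fst]
  have l1 : ∀ k, lay k (rest.map Prod.fst) + lay k (f.map Prod.fst) = 1 := by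
    intro k; rw [← lay_add, e1, lay_pathE]
  have l3 : ∀ k, lay k (rest.map Prod.fst) + lay k (f2.map Prod.fst) = 1 := by
    intro k; rw [← lay_add, ← h3', lay_pathE]
  have memR : ∀ e ∈ rest.map Prod.fst, e = edge w3 e.1 := by
    intro e he
    apply mem_pathE
    rw [h3']
    exact Multiset.mem_add.2 (Or.inl he)
  have memF : ∀ e ∈ f2.map Prod.fst, e = edge w3 e.1 := by
    intro e he
    apply mem_pathE
    rw [h3']
    exact Multiset.mem_add.2 (Or.inr he)
  rcases hc with ⟨a1, a2⟩ | ⟨a1, a2⟩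
  · -- the edge of the layer l is old
    have b1 := memR _ a2
    have b2 : w l'.castSucc = w3 l'.castSucc := congrArg (fun e : Edge N L => e.2.1) b1
    have b3 : 0 < lay l' (rest.map Prod.fst) := lay_pos a2 rfl
    have b4 := l3 l'
    rcases hc2 with ⟨a3, _⟩ | ⟨a3, _⟩
    · have b5 := memF _ a3
      have b6 : w2 l.succ = w3 l.succ := congrArg (fun e : Edge N L => e.2.2) b5
      rw [← hv, ← hv2, b6, hl, b2]
    · have b5 : 0 < lay l' (f2.map Prod.fst) := lay_pos a3 rfl
      omega
  · have b1 := memR _ a2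
    have b2 : w l.succ = w3 l.succ := congrArg (fun e : Edge N L => e.2.2) b1
    have b3 : 0 < lay l (rest.map Prod.fst) := lay_pos a2 rfl
    have b4 := l3 l
    rcases hc2 with ⟨a3, _⟩ | ⟨a3, _⟩
    · have b5 : 0 < lay l (f2.map Prod.fst) := lay_pos a3 rfl
      omega
    · have b5 := memF _ a3
      have b6 : w2 l'.castSucc = w3 l'.castSucc := congrArg (fun e : Edge N L => e.2.1) b5
      rw [← hv, ← hv2, b2, hl, b6]

/-- a change of the status at the time `t` marks a vertex -/
theorem change {p : ℕ → Op S (Edge N L)} {T : ℕ} {out : Fin S} {w : Fin (L + 1) → Fin N}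
    {τ : Fin L → ℕ} (h : pm w τ ∈ C p T out) (t : ℕ) {l l' : Fin L}
    (hc : (τ l < t ∧ ¬ τ l' < t) ∨ (τ l' < t ∧ ¬ τ l < t)) :
    ∃ ρ, U (C p T out) (C p t ρ) l l' (w l.succ) := by
  have ht : t ≤ T := by
    by_contra hcon
    have h1 := (times T out _ h _ (mem_pm w τ l)).1
    have h2 := (times T out _ h _ (mem_pm w τ l')).1
    simp only at h1 h2
    omega
  obtain ⟨d, rfl⟩ := Nat.exists_eq_add_of_le ht
  rcases hc with ⟨h1, h2⟩ | ⟨h1, h2⟩
  · obtain ⟨ρ, f, rest, k1, k2, k3, k4⟩ := cut t d out _ h _ (mem_pm w τ l) h1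
    refine ⟨ρ, f, rest, w, τ, k1, k3.symm, k4, rfl, Or.inl ⟨?_, ?_⟩⟩
    · exact Multiset.mem_map.2 ⟨_, k2, rfl⟩
    · have h3 := mem_pm w τ l'
      rw [k3] at h3
      rcases Multiset.mem_add.1 h3 with h3 | h3
      · exact Multiset.mem_map.2 ⟨_, h3, rfl⟩
      · exact absurd (times t ρ f k1 _ h3).1 h2
  · obtain ⟨ρ, f, rest, k1, k2, k3, k4⟩ := cut t d out _ h _ (mem_pm w τ l') h1
    refine ⟨ρ, f, rest, w, τ, k1, k3.symm, k4, rfl, Or.inr ⟨?_, ?_⟩⟩
    · exact Multiset.mem_map.2 ⟨_, k2, rfl⟩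
    · have h3 := mem_pm w τ l
      rw [k3] at h3
      rcases Multiset.mem_add.1 h3 with h3 | h3
      · exact Multiset.mem_map.2 ⟨_, h3, rfl⟩
      · exact absurd (times t ρ f k1 _ h3).1 h2

open Classical in
/-- the vertices in the position `k` which are marked at the time `t` -/
noncomputable def V (p : ℕ → Op S (Edge N L)) (T : ℕ) (out : Fin S) (t : ℕ) (k : Fin (L + 1)) :
    Finset (Fin N) :=
  Finset.univ.filter fun v => ∃ (l l' : Fin L) (ρ : Fin S), l.succ = k ∧ l.succ = l'.castSucc ∧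
    U (C p T out) (C p t ρ) l l' v

theorem card_V {p : ℕ → Op S (Edge N L)} {T : ℕ} {out : Fin S} {s t₀ : Fin N}
    (hA : Good (C p T out) s t₀) (t : ℕ) (k : Fin (L + 1)) : (V p T out t k).card ≤ S := by
  classical
  have h : ∀ v ∈ V p T out t k, ∃ (ρ : Fin S) (l l' : Fin L), l.succ = k ∧ l.succ = l'.castSucc ∧
      U (C p T out) (C p t ρ) l l' v := by
    intro v hv
    obtain ⟨l, l', ρ, h⟩ := (Finset.mem_filter.1 hv).2
    exact ⟨ρ, l, l', h⟩
  have hne : Nonempty (Fin S) := ⟨out⟩
  choose! g hg using h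
  have := Finset.card_le_card_of_injOn g (s := V p T out t k) (t := (Finset.univ : Finset (Fin S)))
    (fun _ _ => Finset.mem_univ _) (by
      intro v hv v' hv' hgg
      obtain ⟨l, l', h1, h2, h3⟩ := hg v hv
      obtain ⟨m, m', k1, k2, k3⟩ := hg v' hv'
      have e1 : l = m := Fin.succ_injective _ (h1.trans k1.symm)
      subst e1
      have e2 : l' = m' := Fin.castSucc_injective _ (h2.symm.trans k2)
      subst e2
      rw [← hgg] at k3
      exact U_unique hA h2 h3 k3)
  rwa [Finset.card_univ, Fintype.card_fin] at this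

end Pool.Agent.V8H46.RP
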