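import Pool.Agent.V8H46.RP.Main

/-!
# Programs over the natural numbers and over the min-plus semiring
-/

set_option autoImplicit false

namespace Pool.Agent.V8H46.RP

variable {S N L : ℕ}

/-! ### products of matrices -/

theorem prod_ne_zero {R : Type} [CommSemiring R] : ∀ (L : ℕ)
    (M : Fin L → Matrix (Fin N) (Fin N) R) (s t : Fin N), (List.ofFn M).prod s t ≠ 0 →
    ∃ w : Fin (L + 1) → Fin N, w 0 = s ∧ w (Fin.last L) = t ∧
      ∀ l : Fin L, M l (w l.castSucc) (w l.succ) ≠ 0 := by
  intro L
  induction L with
  | zero =>
    intro M s t h
    rw [List.ofFn_zero, List.prod_nil] at h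
    have hst : s = t := by
      by_contra hne
      exact h (Matrix.one_apply_ne hne)
    exact ⟨fun _ => s, rfl, hst, fun l => l.elim0⟩
  | succ L ih =>
    intro M s t h
    rw [List.ofFn_succ, List.prod_cons, Matrix.mul_apply] at h
    obtain ⟨u, _, hu⟩ := Finset.exists_ne_zero_of_sum_ne_zero h
    obtain ⟨w, h1, h2, h3⟩ := ih (fun i => M i.succ) u t (right_ne_zero_of_mul hu)
    refine ⟨Fin.cons s w, rfl, ?_, ?_⟩
    · rw [← Fin.succ_last, Fin.cons_succ, h2]
    · intro l
      refine Fin.cases ?_ (fun l => ?_) l
      · rw [Fin.castSucc_zero, Fin.cons_zero, Fin.cons_succ, h1]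
        exact left_ne_zero_of_mul hu
      · rw [← Fin.succ_castSucc, Fin.cons_succ, Fin.cons_succ]
        exact h3 l

theorem prod_path {R : Type} [CommSemiring R] : ∀ (L : ℕ)
    (M : Fin L → Matrix (Fin N) (Fin N) R) (w : Fin (L + 1) → Fin N),
    (∀ l a b, M l a b ≠ 0 → a = w l.castSucc ∧ b = w l.succ) →
    (List.ofFn M).prod (w 0) (w (Fin.last L)) = ∏ l : Fin L, M l (w l.castSucc) (w l.succ) := by
  intro L
  induction L with
  | zero =>
    intro M w _
    rw [List.ofFn_zero, List.prod_nil, Finset.univ_eq_empty, Finset.prod_empty]
    exact Matrix.one_apply_eq _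
  | succ L ih =>
    intro M w h
    rw [List.ofFn_succ, List.prod_cons, Matrix.mul_apply, Fin.prod_univ_succ]
    rw [Finset.sum_eq_single (w (Fin.succ 0))]
    · have := ih (fun i => M i.succ) (fun k => w k.succ) (by
        intro l a b hab
        have := h l.succ a b hab
        rwa [← Fin.succ_castSucc] at this)
      simp only [Fin.succ_last] at this
      rw [this]
      rfl
    · intro u _ hu
      by_cases h0 : M 0 (w 0) u = 0
      · rw [h0, zero_mul]
      · exact absurd (h 0 (w 0) u h0).2 hu
    · intro h'
      exact absurd (Finset.mem_univ _) h'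

/-! ### monomials with times -/

theorem edge_inj (w : Fin (L + 1) → Fin N) : Function.Injective (edge w) := by
  intro l l' h
  exact congrArg (fun e : Edge N L => e.1) h

theorem nodup_pathE (w : Fin (L + 1) → Fin N) : (pathE w).Nodup :=
  Multiset.Nodup.map (edge_inj w) Finset.univ.nodup

theorem nodup_pm (w : Fin (L + 1) → Fin N) (τ : Fin L → ℕ) : (pm w τ).Nodup := by
  refine Multiset.Nodup.map ?_ Finset.univ.nodup
  intro l l' h
  exact edge_inj w (congrArg Prod.fst h)

theorem exists_pm {m : Multiset (Edge N L × ℕ)} {w : Fin (L + 1) → Fin N}
    (h : m.map Prod.fst = pathE w) : ∃ τ, m = pm w τ := by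
  have h1 : ∀ l : Fin L, ∃ n, (edge w l, n) ∈ m := by
    intro l
    have : edge w l ∈ m.map Prod.fst := by
      rw [h]; exact Multiset.mem_map.2 ⟨l, Finset.mem_univ_val l, rfl⟩
    obtain ⟨z, hz, hz'⟩ := Multiset.mem_map.1 this
    refine ⟨z.2, ?_⟩
    rw [← hz']
    exact hz
  choose τ hτ using h1
  refine ⟨τ, (Multiset.eq_of_le_of_card_le ?_ ?_).symm⟩
  · rw [Multiset.le_iff_subset (nodup_pm w τ)]
    intro z hz
    obtain ⟨l, _, rfl⟩ := Multiset.mem_map.1 hz
    exact hτ l
  · rw [card_pm, ← Multiset.card_map Prod.fst m, h, card_pathE]

theorem path_le {m : Multiset (Edge N L)} {w : Fin (L + 1) → Fin N}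
    (h : ∀ l, edge w l ∈ m) : pathE w ≤ m := by
  rw [Multiset.le_iff_subset (nodup_pathE w)]
  intro e he
  obtain ⟨l, _, rfl⟩ := Multiset.mem_map.1 he
  exact h l

/-- the end of the argument for both semirings -/
theorem good_of {A : Set (Multiset (Edge N L × ℕ))} {s t : Fin N}
    (h1 : ∀ m ∈ A, ∃ w : Fin (L + 1) → Fin N, w 0 = s ∧ w (Fin.last L) = t ∧
      ∀ l, edge w l ∈ m.map Prod.fst)
    (h2 : ∀ w : Fin (L + 1) → Fin N, w 0 = s → w (Fin.last L) = t → ∃ m ∈ A, m.card ≤ L ∧
      ∀ e ∈ m.map Prod.fst, e = edge w e.1) : Good A s t := by
  refine ⟨fun m hm => ?_, fun w hs ht => ?_⟩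
  · obtain ⟨w, k1, k2, k3⟩ := h1 m hm
    exact ⟨w, k1, k2, path_le k3⟩
  · obtain ⟨m, hm, hc, he⟩ := h2 w hs ht
    obtain ⟨w', _, _, k3⟩ := h1 m hm
    have k4 : pathE w' = m.map Prod.fst := by
      apply Multiset.eq_of_le_of_card_le (path_le k3)
      rw [card_pathE, Multiset.card_map]
      exact hc
    have k5 : pathE w' = pathE w := by
      unfold pathE
      apply Multiset.map_congr rfl
      intro l _
      exact he _ (k3 l)
    obtain ⟨τ, hτ⟩ := exists_pm (k4.symm.trans k5)
    exact ⟨τ, hτ ▸ hm⟩

/-! ### natural numbers -/

theorem nat_lower {E : Type} (p : ℕ → Op S E) (x : E → ℕ) : ∀ (t : ℕ) (r : Fin S)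
    (m : Multiset (E × ℕ)), m ∈ C p t r → (m.map fun z => x z.1).prod ≤ regs p x t r := by
  intro t
  induction t with
  | zero => intro r m h; exact absurd h (Set.notMem_empty _)
  | succ t ih =>
    intro r m h
    cases hp : p t with
    | load q e =>
      simp only [C, hp] at h
      simp only [regs, hp, Op.apply]
      by_cases hr : r = q
      · subst hr
        rw [Function.update_self] at h ⊢
        rw [Set.mem_singleton_iff] at h
        subst h
        simp
      · rw [Function.update_of_ne hr] at h ⊢
        exact ih r m h
    | const q c =>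
      simp only [C, hp] at h
      simp only [regs, hp, Op.apply]
      by_cases hr : r = q
      · subst hr
        rw [Function.update_self] at h ⊢
        split_ifs at h with hc
        · exact absurd h (Set.notMem_empty _)
        · rw [Set.mem_singleton_iff] at h
          subst h
          simp only [Multiset.map_zero, Multiset.prod_zero, Nat.cast_id]
          omega
      · rw [Function.update_of_ne hr] at h ⊢
        exact ih r m h
    | add q a b =>
      simp only [C, hp] at h
      simp only [regs, hp, Op.apply]
      by_cases hr : r = q
      · subst hr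
        rw [Function.update_self] at h ⊢
        rcases h with h | h
        · exact (ih a m h).trans (Nat.le_add_right _ _)
        · exact (ih b m h).trans (Nat.le_add_left _ _)
      · rw [Function.update_of_ne hr] at h ⊢
        exact ih r m h
    | mul q a b =>
      simp only [C, hp] at h
      simp only [regs, hp, Op.apply]
      by_cases hr : r = q
      · subst hr
        rw [Function.update_self] at h ⊢
        obtain ⟨m₁, h1, m₂, h2, rfl⟩ := h
        rw [Multiset.map_add, Multiset.prod_add]
        exact Nat.mul_le_mul (ih a m₁ h1) (ih b m₂ h2)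
      · rw [Function.update_of_ne hr] at h ⊢
        exact ih r m h

theorem nat_ne_zero {E : Type} (p : ℕ → Op S E) (x : E → ℕ) : ∀ (t : ℕ) (r : Fin S),
    regs p x t r ≠ 0 → ∃ m ∈ C p t r, ∀ z ∈ m, x z.1 ≠ 0 := by
  intro t
  induction t with
  | zero => intro r h; exact absurd rfl h
  | succ t ih =>
    intro r h
    cases hp : p t with
    | load q e =>
      simp only [regs, hp, Op.apply] at h
      simp only [C, hp]
      by_cases hr : r = q
      · subst hr
        rw [Function.update_self] at h ⊢
        refine ⟨_, Set.mem_singleton _, ?_⟩
        intro z hz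
        rw [Multiset.mem_singleton] at hz
        subst hz
        exact h
      · rw [Function.update_of_ne hr] at h ⊢
        exact ih r h
    | const q c =>
      simp only [regs, hp, Op.apply] at h
      simp only [C, hp]
      by_cases hr : r = q
      · subst hr
        rw [Function.update_self] at h ⊢
        rw [if_neg (by rintro rfl; exact h rfl)]
        exact ⟨0, Set.mem_singleton _, fun z hz => absurd hz (Multiset.notMem_zero _)⟩
      · rw [Function.update_of_ne hr] at h ⊢
        exact ih r h
    | add q a b =>
      simp only [regs, hp, Op.apply] at h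
      simp only [C, hp]
      by_cases hr : r = q
      · subst hr
        rw [Function.update_self] at h ⊢
        by_cases ha : regs p x t a = 0
        · have hb : regs p x t b ≠ 0 := by
            intro hb; exact h (by rw [ha, hb])
          obtain ⟨m, h1, h2⟩ := ih b hb
          exact ⟨m, Or.inr h1, h2⟩
        · obtain ⟨m, h1, h2⟩ := ih a ha
          exact ⟨m, Or.inl h1, h2⟩
      · rw [Function.update_of_ne hr] at h ⊢
        exact ih r h
    | mul q a b =>
      simp only [regs, hp, Op.apply] at h
      simp only [C, hp]
      by_cases hr : r = q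
      · subst hr
        rw [Function.update_self] at h ⊢
        obtain ⟨m₁, h1, h2⟩ := ih a (left_ne_zero_of_mul h)
        obtain ⟨m₂, h3, h4⟩ := ih b (right_ne_zero_of_mul h)
        refine ⟨m₁ + m₂, Set.mem_image2_of_mem h1 h3, ?_⟩
        intro z hz
        rcases Multiset.mem_add.1 hz with hz | hz
        · exact h2 z hz
        · exact h4 z hz
      · rw [Function.update_of_ne hr] at h ⊢
        exact ih r h

theorem good_nat {s t : Fin N} {p : ℕ → Op S (Fin L × Fin N × Fin N)} {T : ℕ} {out : Fin S}
    (h : Computes ℕ s t p T out) : Good (C p T out) s t := by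
  classical
  apply good_of
  · intro m hm
    have h1 := nat_lower p (fun e => if e ∈ m.map Prod.fst then 1 else 0) T out m hm
    have h2 : (m.map fun z => if z.1 ∈ m.map Prod.fst then (1 : ℕ) else 0).prod = 1 := by
      apply Multiset.prod_eq_one
      intro y hy
      obtain ⟨z, hz, rfl⟩ := Multiset.mem_map.1 hy
      rw [if_pos (Multiset.mem_map_of_mem _ hz)]
    rw [h2] at h1
    have h3 := h fun l => Matrix.of fun a b => if (l, a, b) ∈ m.map Prod.fst then 1 else 0
    simp only [Matrix.of_apply, Prod.mk.eta] at h3
    rw [h3] at h1
    obtain ⟨w, k1, k2, k3⟩ := prod_ne_zero L _ s t (Nat.one_le_iff_ne_zero.1 h1)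
    refine ⟨w, k1, k2, fun l => ?_⟩
    have := k3 l
    simp only [Matrix.of_apply] at this
    by_contra hcon
    exact this (if_neg hcon)
  · intro w hs ht
    have h3 := h fun l => Matrix.of fun a b => if (l, a, b) = edge w l then 2 else 0
    have h4 := prod_path L (fun l => Matrix.of fun a b => if (l, a, b) = edge w l then 2 else 0) w
      (by
        intro l a b hab
        simp only [Matrix.of_apply] at hab
        have : (l, a, b) = edge w l := by
          by_contra hcon
          exact hab (if_neg hcon)
        exact ⟨congrArg (fun e : Edge N L => e.2.1) this,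
          congrArg (fun e : Edge N L => e.2.2) this⟩)
    have h5 : ∀ l : Fin L, (Matrix.of fun a b => if (l, a, b) = edge w l then 2 else 0 :
        Matrix (Fin N) (Fin N) ℕ) (w l.castSucc) (w l.succ) = 2 := by
      intro l
      exact if_pos rfl
    rw [hs, ht, ← h3, Finset.prod_congr rfl fun l _ => h5 l, Finset.prod_const,
      Finset.card_univ, Fintype.card_fin] at h4
    simp only [Matrix.of_apply, Prod.mk.eta] at h4
    have h6 : regs p (fun e : Fin L × Fin N × Fin N => if e = edge w e.1 then (2 : ℕ) else 0)
        T out ≠ 0 := by
      rw [h4]; positivity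
    obtain ⟨m, hm, h7⟩ := nat_ne_zero p _ T out h6
    have h8 : ∀ e ∈ m.map Prod.fst, e = edge w e.1 := by
      intro e he
      obtain ⟨z, hz, rfl⟩ := Multiset.mem_map.1 he
      by_contra hcon
      exact h7 z hz (if_neg hcon)
    refine ⟨m, hm, ?_, h8⟩
    have h9 := nat_lower p (fun e : Fin L × Fin N × Fin N =>
      if e = edge w e.1 then (2 : ℕ) else 0) T out m hm
    rw [h4] at h9
    have h10 : (m.map fun z => if z.1 = edge w z.1.1 then (2 : ℕ) else 0) = m.map fun _ => 2 := by
      apply Multiset.map_congr rfl
      intro z hz
      exact if_pos (h8 _ (Multiset.mem_map_of_mem _ hz))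
    rw [h10, Multiset.map_const', Multiset.prod_replicate] at h9
    exact (Nat.pow_le_pow_iff_right (by norm_num)).1 h9

/-! ### the min-plus semiring -/

/-- The min-plus semiring on the natural numbers and infinity: its addition is the minimum, its
multiplication is the sum. -/
abbrev MinPlus : Type := Tropical (WithTop ℕ)

theorem cast_pos_minPlus : ∀ c : ℕ, c ≠ 0 → (c : MinPlus) = 1 := by
  intro c
  induction c with
  | zero => intro h; exact absurd rfl h
  | succ c ih =>
    intro _
    rw [Nat.cast_succ]
    by_cases hc : c = 0
    · subst hc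
      rw [Nat.cast_zero, zero_add]
    · rw [ih hc, Tropical.add_self]

theorem trop_lower {E : Type} (p : ℕ → Op S E) (x : E → MinPlus) : ∀ (t : ℕ) (r : Fin S)
    (m : Multiset (E × ℕ)), m ∈ C p t r →
    Tropical.untrop (regs p x t r) ≤ (m.map fun z => Tropical.untrop (x z.1)).sum := by
  intro t
  induction t with
  | zero => intro r m h; exact absurd h (Set.notMem_empty _)
  | succ t ih =>
    intro r m h
    cases hp : p t with
    | load q e =>
      simp only [C, hp] at h
      simp only [regs, hp, Op.apply]
      by_cases hr : r = q
      · subst hr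
        rw [Function.update_self] at h ⊢
        rw [Set.mem_singleton_iff] at h
        subst h
        simp
      · rw [Function.update_of_ne hr] at h ⊢
        exact ih r m h
    | const q c =>
      simp only [C, hp] at h
      simp only [regs, hp, Op.apply]
      by_cases hr : r = q
      · subst hr
        rw [Function.update_self] at h ⊢
        split_ifs at h with hc
        · exact absurd h (Set.notMem_empty _)
        · rw [Set.mem_singleton_iff] at h
          subst h
          rw [cast_pos_minPlus c hc]
          simp
      · rw [Function.update_of_ne hr] at h ⊢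
        exact ih r m h
    | add q a b =>
      simp only [C, hp] at h
      simp only [regs, hp, Op.apply]
      by_cases hr : r = q
      · subst hr
        rw [Function.update_self] at h ⊢
        rw [Tropical.untrop_add]
        rcases h with h | h
        · exact (min_le_left _ _).trans (ih a m h)
        · exact (min_le_right _ _).trans (ih b m h)
      · rw [Function.update_of_ne hr] at h ⊢
        exact ih r m h
    | mul q a b =>
      simp only [C, hp] at h
      simp only [regs, hp, Op.apply]
      by_cases hr : r = q
      · subst hr
        rw [Function.update_self] at h ⊢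
        obtain ⟨m₁, h1, m₂, h2, rfl⟩ := h
        rw [Multiset.map_add, Multiset.sum_add, Tropical.untrop_mul]
        exact add_le_add (ih a m₁ h1) (ih b m₂ h2)
      · rw [Function.update_of_ne hr] at h ⊢
        exact ih r m h

theorem trop_attained {E : Type} (p : ℕ → Op S E) (x : E → MinPlus) : ∀ (t : ℕ) (r : Fin S),
    regs p x t r ≠ 0 → ∃ m ∈ C p t r,
      (m.map fun z => Tropical.untrop (x z.1)).sum = Tropical.untrop (regs p x t r) := by
  intro t
  induction t with
  | zero => intro r h; exact absurd rfl h
  | succ t ih =>
    intro r h
    cases hp : p t with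
    | load q e =>
      simp only [regs, hp, Op.apply] at h ⊢
      simp only [C, hp]
      by_cases hr : r = q
      · subst hr
        rw [Function.update_self] at h ⊢
        rw [Function.update_self]
        exact ⟨_, Set.mem_singleton _, by simp⟩
      · rw [Function.update_of_ne hr] at h ⊢
        rw [Function.update_of_ne hr]
        exact ih r h
    | const q c =>
      simp only [regs, hp, Op.apply] at h ⊢
      simp only [C, hp]
      by_cases hr : r = q
      · subst hr
        rw [Function.update_self] at h ⊢
        rw [Function.update_self]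
        have hc : c ≠ 0 := by rintro rfl; exact h Nat.cast_zero
        rw [if_neg hc, cast_pos_minPlus c hc]
        exact ⟨0, Set.mem_singleton _, by simp⟩
      · rw [Function.update_of_ne hr] at h ⊢
        rw [Function.update_of_ne hr]
        exact ih r h
    | add q a b =>
      simp only [regs, hp, Op.apply] at h ⊢
      simp only [C, hp]
      by_cases hr : r = q
      · subst hr
        rw [Function.update_self] at h ⊢
        rw [Function.update_self]
        rw [Tropical.untrop_add]
        rcases le_total (Tropical.untrop (regs p x t a)) (Tropical.untrop (regs p x t b))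
          with hab | hab
        · rw [min_eq_left hab]
          have ha : regs p x t a ≠ 0 := by
            intro ha
            rw [ha, Tropical.untrop_zero, top_le_iff] at hab
            apply h
            rw [ha, zero_add]
            exact Tropical.untrop_injective (by rw [hab, Tropical.untrop_zero])
          obtain ⟨m, h1, h2⟩ := ih a ha
          exact ⟨m, Or.inl h1, h2⟩
        · rw [min_eq_right hab]
          have hb : regs p x t b ≠ 0 := by
            intro hb
            rw [hb, Tropical.untrop_zero, top_le_iff] at hab
            apply h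
            rw [hb, add_zero]
            exact Tropical.untrop_injective (by rw [hab, Tropical.untrop_zero])
          obtain ⟨m, h1, h2⟩ := ih b hb
          exact ⟨m, Or.inr h1, h2⟩
      · rw [Function.update_of_ne hr] at h ⊢
        rw [Function.update_of_ne hr]
        exact ih r h
    | mul q a b =>
      simp only [regs, hp, Op.apply] at h ⊢
      simp only [C, hp]
      by_cases hr : r = q
      · subst hr
        rw [Function.update_self] at h ⊢
        rw [Function.update_self]
        obtain ⟨m₁, h1, h2⟩ := ih a (left_ne_zero_of_mul h)
        obtain ⟨m₂, h3, h4⟩ := ih b (right_ne_zero_of_mul h)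
        refine ⟨m₁ + m₂, Set.mem_image2_of_mem h1 h3, ?_⟩
        rw [Multiset.map_add, Multiset.sum_add, Tropical.untrop_mul, h2, h4]
      · rw [Function.update_of_ne hr] at h ⊢
        rw [Function.update_of_ne hr]
        exact ih r h

theorem good_trop {s t : Fin N} {p : ℕ → Op S (Fin L × Fin N × Fin N)} {T : ℕ} {out : Fin S}
    (h : Computes MinPlus s t p T out) : Good (C p T out) s t := by
  classical
  apply good_of
  · intro m hm
    have h1 := trop_lower p (fun e => if e ∈ m.map Prod.fst then 1 else 0) T out m hm
    have h2 : (m.map fun z => Tropical.untrop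
        (if z.1 ∈ m.map Prod.fst then (1 : MinPlus) else 0)).sum = 0 := by
      apply Multiset.sum_eq_zero
      intro y hy
      obtain ⟨z, hz, rfl⟩ := Multiset.mem_map.1 hy
      rw [if_pos (Multiset.mem_map_of_mem _ hz), Tropical.untrop_one]
    rw [h2] at h1
    have h3 := h fun l => Matrix.of fun a b => if (l, a, b) ∈ m.map Prod.fst then 1 else 0
    simp only [Matrix.of_apply, Prod.mk.eta] at h3
    rw [h3] at h1
    obtain ⟨w, k1, k2, k3⟩ := prod_ne_zero L _ s t (by
      intro h0
      rw [h0, Tropical.untrop_zero] at h1
      exact absurd h1 (by simp))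
    refine ⟨w, k1, k2, fun l => ?_⟩
    have := k3 l
    simp only [Matrix.of_apply] at this
    by_contra hcon
    exact this (if_neg hcon)
  · intro w hs ht
    let y : MinPlus := Tropical.trop 1
    have hy0 : y ≠ 0 := by
      intro h0
      have := congrArg Tropical.untrop h0
      rw [Tropical.untrop_zero, Tropical.untrop_trop] at this
      exact absurd this (by simp)
    have h3 := h fun l => Matrix.of fun a b => if (l, a, b) = edge w l then y else 0
    have h4 := prod_path L (fun l => Matrix.of fun a b => if (l, a, b) = edge w l then y else 0) w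
      (by
        intro l a b hab
        simp only [Matrix.of_apply] at hab
        have : (l, a, b) = edge w l := by
          by_contra hcon
          exact hab (if_neg hcon)
        exact ⟨congrArg (fun e : Edge N L => e.2.1) this,
          congrArg (fun e : Edge N L => e.2.2) this⟩)
    have h5 : ∀ l : Fin L, (Matrix.of fun a b => if (l, a, b) = edge w l then y else 0 :
        Matrix (Fin N) (Fin N) MinPlus) (w l.castSucc) (w l.succ) = y := by
      intro l
      exact if_pos rfl
    rw [hs, ht, ← h3, Finset.prod_congr rfl fun l _ => h5 l, Finset.prod_const,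
      Finset.card_univ, Fintype.card_fin] at h4
    simp only [Matrix.of_apply, Prod.mk.eta] at h4
    have h6 : Tropical.untrop (y ^ L) = (L : WithTop ℕ) := by
      rw [Tropical.untrop_pow, Tropical.untrop_trop, nsmul_one]
    have h6' : regs p (fun e : Fin L × Fin N × Fin N => if e = edge w e.1 then y else 0)
        T out ≠ 0 := by
      rw [h4]
      intro h0
      rw [h0, Tropical.untrop_zero] at h6
      exact absurd h6.symm (WithTop.natCast_ne_top L)
    obtain ⟨m, hm, h7⟩ := trop_attained p _ T out h6'
    rw [h4, h6] at h7
    have h8 : ∀ e ∈ m.map Prod.fst, e = edge w e.1 := by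
      intro e he
      obtain ⟨z, hz, rfl⟩ := Multiset.mem_map.1 he
      by_contra hcon
      have h9 : (m.map fun z => Tropical.untrop (if z.1 = edge w z.1.1 then y else 0)).sum = ⊤ := by
        obtain ⟨m', rfl⟩ := Multiset.exists_cons_of_mem hz
        rw [Multiset.map_cons, Multiset.sum_cons, if_neg hcon, Tropical.untrop_zero, top_add]
      rw [h9] at h7
      exact absurd h7.symm (WithTop.natCast_ne_top L)
    refine ⟨m, hm, ?_, h8⟩
    have h10 : (m.map fun z => Tropical.untrop (if z.1 = edge w z.1.1 then y else 0)) =
        m.map fun _ => (1 : WithTop ℕ) := by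
      apply Multiset.map_congr rfl
      intro z hz
      rw [if_pos (h8 _ (Multiset.mem_map_of_mem _ hz))]
      exact Tropical.untrop_trop _
    rw [h10, Multiset.map_const', Multiset.sum_replicate, nsmul_one] at h7
    exact (Nat.cast_injective h7).le

end Pool.Agent.V8H46.RP
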