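import Pool.Agent.V8H46.RP.Defs

/-!
# The sets of monomials produced by a program, with the times at which the factors are loaded
-/

set_option autoImplicit false

namespace Pool.Agent.V8H46.RP

variable {S : ℕ} {E : Type}

/-- the sets of monomials in the registers; every factor carries the time of its loading -/
def C (p : ℕ → Op S E) : ℕ → Fin S → Set (Multiset (E × ℕ))
  | 0 => fun _ => ∅
  | t + 1 => match p t with
    | .load r e => Function.update (C p t) r {({(e, t)} : Multiset (E × ℕ))}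
    | .const r c => Function.update (C p t) r (if c = 0 then ∅ else {0})
    | .add r a b => Function.update (C p t) r (C p t a ∪ C p t b)
    | .mul r a b => Function.update (C p t) r (Set.image2 (fun x y => x + y) (C p t a) (C p t b))

theorem C_succ {p : ℕ → Op S E} {t : ℕ} {r : Fin S} {m : Multiset (E × ℕ)}
    (h : m ∈ C p (t + 1) r) :
    (∃ r' e, p t = .load r' e ∧ m = {(e, t)}) ∨ m = 0 ∨
      (∃ a, m ∈ C p t a ∧ ∀ m' ∈ C p t a, m' ∈ C p (t + 1) r) ∨
      (∃ a b m₁ m₂, m₁ ∈ C p t a ∧ m₂ ∈ C p t b ∧ m = m₁ + m₂ ∧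
        ∀ m₁' ∈ C p t a, ∀ m₂' ∈ C p t b, m₁' + m₂' ∈ C p (t + 1) r) := by
  cases hp : p t with
  | load q e =>
    by_cases hr : r = q
    · subst hr
      simp only [C, hp, Function.update_self, Set.mem_singleton_iff] at h
      exact Or.inl ⟨r, e, rfl, h⟩
    · have e1 : C p (t + 1) r = C p t r := by
        simp only [C, hp, Function.update_of_ne hr]
      rw [e1] at h ⊢
      exact Or.inr (Or.inr (Or.inl ⟨r, h, fun m' hm' => hm'⟩))
  | const q c =>
    by_cases hr : r = q
    · subst hr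
      simp only [C, hp, Function.update_self] at h
      split_ifs at h
      · exact absurd h (Set.notMem_empty _)
      · exact Or.inr (Or.inl h)
    · have e1 : C p (t + 1) r = C p t r := by
        simp only [C, hp, Function.update_of_ne hr]
      rw [e1] at h ⊢
      exact Or.inr (Or.inr (Or.inl ⟨r, h, fun m' hm' => hm'⟩))
  | add q a b =>
    by_cases hr : r = q
    · subst hr
      have e1 : C p (t + 1) r = C p t a ∪ C p t b := by
        simp only [C, hp, Function.update_self]
      rw [e1] at h ⊢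
      rcases h with h | h
      · exact Or.inr (Or.inr (Or.inl ⟨a, h, fun m' hm' => Or.inl hm'⟩))
      · exact Or.inr (Or.inr (Or.inl ⟨b, h, fun m' hm' => Or.inr hm'⟩))
    · have e1 : C p (t + 1) r = C p t r := by
        simp only [C, hp, Function.update_of_ne hr]
      rw [e1] at h ⊢
      exact Or.inr (Or.inr (Or.inl ⟨r, h, fun m' hm' => hm'⟩))
  | mul q a b =>
    by_cases hr : r = q
    · subst hr
      have e1 : C p (t + 1) r = Set.image2 (fun x y => x + y) (C p t a) (C p t b) := by
        simp only [C, hp, Function.update_self]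
      rw [e1] at h ⊢
      obtain ⟨m₁, h1, m₂, h2, h3⟩ := h
      exact Or.inr (Or.inr (Or.inr ⟨a, b, m₁, m₂, h1, h2, h3.symm,
        fun m₁' h1' m₂' h2' => Set.mem_image2_of_mem h1' h2'⟩))
    · have e1 : C p (t + 1) r = C p t r := by
        simp only [C, hp, Function.update_of_ne hr]
      rw [e1] at h ⊢
      exact Or.inr (Or.inr (Or.inl ⟨r, h, fun m' hm' => hm'⟩))

/-- the times of the factors -/
theorem times {p : ℕ → Op S E} : ∀ (t : ℕ) (r : Fin S) (m : Multiset (E × ℕ)), m ∈ C p t r →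
    ∀ x ∈ m, x.2 < t ∧ ∃ r', p x.2 = .load r' x.1 := by
  intro t
  induction t with
  | zero => intro r m h; exact absurd h (Set.notMem_empty _)
  | succ t ih =>
    intro r m h x hx
    rcases C_succ h with ⟨r', e, h1, rfl⟩ | rfl | ⟨a, h1, _⟩ | ⟨a, b, m₁, m₂, h1, h2, rfl, _⟩
    · rw [Multiset.mem_singleton] at hx
      subst hx
      exact ⟨Nat.lt_succ_self t, r', h1⟩
    · exact absurd hx (Multiset.notMem_zero _)
    · obtain ⟨k1, k2⟩ := ih a m h1 x hx
      exact ⟨k1.trans (Nat.lt_succ_self t), k2⟩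
    · rcases Multiset.mem_add.1 hx with hx | hx
      · obtain ⟨k1, k2⟩ := ih a m₁ h1 x hx
        exact ⟨k1.trans (Nat.lt_succ_self t), k2⟩
      · obtain ⟨k1, k2⟩ := ih b m₂ h2 x hx
        exact ⟨k1.trans (Nat.lt_succ_self t), k2⟩

/-- cutting a derivation at the time `t` -/
theorem cut {p : ℕ → Op S E} (t : ℕ) : ∀ (d : ℕ) (r : Fin S) (m : Multiset (E × ℕ)),
    m ∈ C p (t + d) r → ∀ x ∈ m, x.2 < t →
    ∃ (ρ : Fin S) (f rest : Multiset (E × ℕ)), f ∈ C p t ρ ∧ x ∈ f ∧ m = rest + f ∧
      ∀ f' ∈ C p t ρ, rest + f' ∈ C p (t + d) r := by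
  intro d
  induction d with
  | zero =>
    intro r m h x hx _
    exact ⟨r, m, 0, h, hx, (zero_add m).symm, fun f' hf' => by rw [zero_add]; exact hf'⟩
  | succ d ih =>
    intro r m h x hx hxt
    rw [← add_assoc] at h ⊢
    rcases C_succ h with ⟨r', e, h1, rfl⟩ | rfl | ⟨a, h1, h2⟩ | ⟨a, b, m₁, m₂, h1, h2, rfl, h3⟩
    · rw [Multiset.mem_singleton] at hx
      subst hx
      simp only at hxt
      omega
    · exact absurd hx (Multiset.notMem_zero _)
    · obtain ⟨ρ, f, rest, k1, k2, k3, k4⟩ := ih a m h1 x hx hxt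
      exact ⟨ρ, f, rest, k1, k2, k3, fun f' hf' => h2 _ (k4 f' hf')⟩
    · rcases Multiset.mem_add.1 hx with hx | hx
      · obtain ⟨ρ, f, rest, k1, k2, k3, k4⟩ := ih a m₁ h1 x hx hxt
        refine ⟨ρ, f, rest + m₂, k1, k2, by rw [k3]; abel, fun f' hf' => ?_⟩
        have := h3 _ (k4 f' hf') _ h2
        have e : rest + m₂ + f' = rest + f' + m₂ := by abel
        rw [e]; exact this
      · obtain ⟨ρ, f, rest, k1, k2, k3, k4⟩ := ih b m₂ h2 x hx hxt
        refine ⟨ρ, f, m₁ + rest, k1, k2, by rw [k3]; abel, fun f' hf' => ?_⟩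
        have := h3 _ h1 _ (k4 f' hf')
        have e : m₁ + rest + f' = m₁ + (rest + f') := by abel
        rw [e]; exact this

end Pool.Agent.V8H46.RP
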